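import Mathlib
import Pool.Agent.K1H88.WS.Final

/-!
# Small witnesses for the strong pseudoprimality test: fewer than `x^(1/2)` exceptions

Unconditionally all but `O(x^(1/2 - 1/20000))` of the composite numbers `n ≤ x` have a witness
`1 < b ≤ 2 (log n)²`.

The exponent `1/2` is what the large sieve for real characters gives: up to `X` at most `X^(1/2+ε)` odd
squarefree numbers have prescribed symbols at all primes up to `(log x)²`. To go below it one uses that an
exception `n` satisfies `λ(D) ∣ n - 1` for every divisor `D` of `n`, where `λ(D)` is the exponent of the group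
generated by the small primes modulo `D`. For a prime `p` this exponent is at least `p^(1/2-ε)`, and at most
`t x^ε` primes have exponent at most `t`. So a last factor of `n` lies in a progression with a large modulus, and
the large sieve, carried out inside a progression (Polya-Vinogradov for the characters twisted by the
progression), shows that fewer than the square root of the available range remain. The remaining cases are: the
rest has exponent smaller than a fixed small power of `x`, then its primes are too sparse (their exponents divide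
one small number); or `n = p q m` with `m` small, where `p` and `q` have the same symbols: then either the
progression for `q` modulo `λ(p)` is long enough, or `n` is determined by few parameters, or `n = (1+ga)(1+gb)`
with small `a, b` and one uses the large sieve for the values of this quadratic polynomial in `g`, with complete
sums of the characters along it.
-/

set_option autoImplicit false

namespace Pool.Agent.Results.MP_0b15c0_nt.BelowSquareRoot

/-- `n` fails the strong test for the base `b`: writing `n - 1 = 2 ^ j * d` with `d` odd, neither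
`b ^ d = 1` nor `b ^ (2 ^ i * d) = -1` for some `i < j`, modulo `n`. -/
def IsWitness (n b : ℕ) : Prop :=
  ∀ j d : ℕ, n - 1 = 2 ^ j * d → Odd d →
    (b : ZMod n) ^ d ≠ 1 ∧ ∀ i : ℕ, i < j → (b : ZMod n) ^ (2 ^ i * d) ≠ -1

/-- the composite numbers at most `x` without a witness in `1 < b ≤ 2 (log n)^2` -/
def Exceptions (x : ℕ) : Set ℕ :=
  {n : ℕ | n ≤ x ∧ 2 ≤ n ∧ ¬ n.Prime ∧
    ¬ ∃ b : ℕ, 1 < b ∧ (b : ℝ) ≤ 2 * (Real.log n) ^ 2 ∧ IsWitness n b}

/-- There is `K` such that for all `x ≥ 1` at most `K x^(1/2 - 1/20000)` composite `n ≤ x` have no witness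
`b` with `1 < b ≤ 2 (log n)^2`. -/
theorem result : ∃ K : ℝ, ∀ x : ℕ, 1 ≤ x →
    (Exceptions x).Finite ∧
      ((Exceptions x).ncard : ℝ) ≤ K * (x : ℝ) ^ (1 / 2 - 1 / 20000 : ℝ) := by
  classical
  obtain ⟨K, _, hK⟩ := K1H88.WS.ws_count
  refine ⟨K, fun x hx => ?_⟩
  have h1 : Exceptions x ⊆ (((Finset.Icc 1 x).filter (W57.SW.Bd 2) : Finset ℕ) : Set ℕ) := by
    intro n hn
    obtain ⟨h1, h2, h3, h4⟩ := hn
    rw [Finset.mem_coe, Finset.mem_filter, Finset.mem_Icc]
    refine ⟨⟨by omega, h1⟩, h2, h3, fun b hb1 hb2 => ?_⟩
    by_contra hp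
    apply h4
    refine ⟨b, hb1, ?_, fun j d hjd hd => ⟨fun e => ?_, fun i hi e => ?_⟩⟩
    · rw [← Real.rpow_natCast]
      exact_mod_cast hb2
    · exact hp ⟨j, d, hjd, hd, Or.inl e⟩
    · exact hp ⟨j, d, hjd, hd, Or.inr ⟨i, hi, e⟩⟩
  have h2 : (Exceptions x).Finite := (Finset.finite_toSet _).subset h1
  refine ⟨h2, le_trans ?_ (hK x hx)⟩
  have h3 := Set.ncard_le_ncard h1 (Finset.finite_toSet _)
  rw [Set.ncard_coe_finset] at h3
  exact_mod_cast h3

end Pool.Agent.Results.MP_0b15c0_nt.BelowSquareRoot
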