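import Mathlib
import Pool.Agent.K1H51.SQ.Crit

/-!
# Small witnesses: the large prime factors of `n` and of `n - 1`

Let `A ≥ 2`. Unconditionally every large composite `n` has a witness `1 < b ≤ 2 (log n)^A` if it has a prime factor `p`
for which `gcd (p - 1, n - 1)` is less than `F(p)`, the maximum of `√p exp (log p / (4 log log p))` and
`p^(1 - 1/A - ε)`. In particular, for the range `A = 2` of the question, it has a witness

* if it has a prime factor `p ≥ n^(2/3)` (more generally if `p F(p) ≥ n`; for large `A` all `p ≥ n^(1/2+δ)`);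
* if `n - 1` has a prime factor `q > √n` with `q F(p) ≥ n` for a prime factor `p` of `n` (if `n` has at most `k` prime
  factors, it is enough that `n - 1` has a prime factor `q ≥ n^(1 - 1/(2k))`: for products of two primes `q ≥ n^(3/4)`);
* if `n - 1 = M q` with `q` prime and `M ≤ exp (c (log log n)² / log log log n)`.

Proof. Let `n = p m` be an exception. The products of small primes generate a subgroup modulo `p` of order
`λ ≥ F(p)`, and `λ` divides `gcd (p - 1, n - 1) = gcd (p - 1, m - 1)`, which is less than `m`. If `q` is a prime factor of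
`n - 1` and `q² > n`, then `q` does not divide `p - 1`, because then it would divide `m - 1`, too. So `q λ` divides `n - 1`.
If `n - 1 = M q`, then it follows that all prime factors of `n` are at most `M²`, and `FewSmallPrimes` applies.
-/

set_option autoImplicit false

namespace Pool.Agent.Results.MP_0b15c0_nt.FactorsOfNeighbours

open Real

/-- `n` fails the strong test for the base `b`: writing `n - 1 = 2 ^ j * d` with `d` odd, neither
`b ^ d = 1` nor `b ^ (2 ^ i * d) = -1` for some `i < j`, modulo `n`. -/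
def IsWitness (n b : ℕ) : Prop :=
  ∀ j d : ℕ, n - 1 = 2 ^ j * d → Odd d →
    (b : ZMod n) ^ d ≠ 1 ∧ ∀ i : ℕ, i < j → (b : ZMod n) ^ (2 ^ i * d) ≠ -1

/-- `F(p)`, the maximum of `√p exp (log p / (4 log log p))` and `p^(1 - 1/A - ε)` -/
noncomputable def F (A ε : ℝ) (p : ℕ) : ℝ :=
  max (√p * exp (log p / (4 * log (log p)))) ((p : ℝ) ^ (1 - 1 / A - ε))

/-- Let `A ≥ 2` and `ε > 0`. There are `c > 0` and `n₀` such that every composite `n ≥ n₀` has a witness
`1 < b ≤ 2 (log n)^A` in each of the following cases: (1) some prime factor `p` of `n` has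
`gcd (p - 1, n - 1) < F(p)`; (2) some prime factor `p` of `n` has `p F(p) ≥ n`; (3) there are a prime factor `q` of
`n - 1` with `q² > n` and a prime factor `p` of `n` with `q F(p) ≥ n`; (4) `n - 1 = M q` with `q` prime and
`M ≤ exp (c (log log n)² / log log log n)`. -/
theorem result (A ε : ℝ) (hA : 2 ≤ A) (hε : 0 < ε) :
    ∃ c : ℝ, 0 < c ∧ ∃ n₀ : ℕ, ∀ n : ℕ, n₀ ≤ n → 2 ≤ n → ¬ n.Prime →
      ((∃ p : ℕ, p.Prime ∧ p ∣ n ∧ (Nat.gcd (p - 1) (n - 1) : ℝ) < F A ε p) ∨
        (∃ p : ℕ, p.Prime ∧ p ∣ n ∧ (n : ℝ) ≤ p * F A ε p) ∨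
        (∃ p q : ℕ, p.Prime ∧ p ∣ n ∧ q.Prime ∧ q ∣ n - 1 ∧ n < q ^ 2 ∧ (n : ℝ) ≤ q * F A ε p) ∨
        (∃ q M : ℕ, q.Prime ∧ n - 1 = M * q ∧
          (M : ℝ) ≤ exp (c * (log (log n)) ^ 2 / log (log (log n))))) →
      ∃ b : ℕ, 1 < b ∧ (b : ℝ) ≤ 2 * (log n) ^ A ∧ IsWitness n b := by
  have hW : ∀ n b : ℕ, ¬ IsWitness n b → H379R2.W.Passes n b := by
    intro n b h
    by_contra hp
    exact h fun j d hjd hd => ⟨fun e => hp ⟨j, d, hjd, hd, Or.inl e⟩,
      fun i hi e => hp ⟨j, d, hjd, hd, Or.inr ⟨i, hi, e⟩⟩⟩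
  obtain ⟨c, hc, N, hN⟩ := K1H51.SQ.crit A ε hA hε
  refine ⟨c, hc, N, fun n hn hn2 hnp h => ?_⟩
  by_contra hcon
  push Not at hcon
  obtain ⟨h1, h2, h3, h4⟩ := hN n hn ⟨hn2, hnp, fun b hb1 hb2 => hW n b (hcon b hb1 hb2)⟩
  rcases h with ⟨p, hp, hpn, h⟩ | ⟨p, hp, hpn, h⟩ | ⟨p, q, hp, hpn, hq, hqn, hlt, h⟩ | ⟨q, M, hq, hM, h⟩
  · exact absurd (h1 p hp hpn) (not_le.2 h)
  · exact absurd (h2 p hp hpn) (not_lt.2 h)
  · exact absurd (h3 p q hp hpn hq hqn hlt) (not_lt.2 h)
  · exact absurd (h4 q M hq hM) (not_lt.2 h)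

end Pool.Agent.Results.MP_0b15c0_nt.FactorsOfNeighbours
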