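import Mathlib
import Pool.Agent.K1H51.SQ.Fin

/-!
# Small witnesses for the strong pseudoprimality test for numbers with a large prime factor

Unconditionally, for every `ε > 0`, all but `O(x^(17/35 + ε))` of the composite numbers `n ≤ x` that have a prime
factor `q ≥ √n` (for instance all products of two primes) have a witness `1 < b ≤ 2 (log n)²`.

Proof. Let `n = s q` be an exception and let `λ` be the exponent of the group generated by the small primes modulo
`q`; then `λ` divides `q - 1` and `s - 1`. The sum of `1 / λ` over all primes up to `x` is `O(x^ε)`, which settles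
`q ≥ x^(18/35)`. All small primes have the same symbols modulo `s` as modulo `q`, or all have symbol one modulo `s`,
or modulo `q`. In the first two cases: if `λ ≤ x^(3/7)`, one fixes `q`, and `s` lies in a progression modulo `λ`,
where a large sieve applies; if `λ > x^(3/7)`, then `n = (1 + a λ) (1 + b λ)` with `a b ≤ x^(1/7)`, and one fixes
`a`, `b` and uses a large sieve for the values of `(1 + a g) (1 + b g)` or of `1 + a g`. In the last case all prime
factors of `n` but one, `p`, have all symbols one, or `n = r s' q` where all symbols modulo `r = p₁ p₂` are one and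
those modulo the primes of `s'` are prescribed. If the exponent of `p` is at least `√p x^(1/40)`, one fixes `n / p`,
which is one of `O(x^(1/2+ε))` numbers with all symbols one; else there are few such `p`, and one fixes `n / q` and
uses the large sieve in the progressions modulo the exponent of `q`. Finally one sums over dyadic intervals.

The two large sieves, the bound for the number of primes with small exponent and the structure of the exceptions
are those of `BelowSquareRoot` (`Pool/Agent/K1H88/WS`).
-/

set_option autoImplicit false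

namespace Pool.Agent.Results.MP_0b15c0_nt.LargePrimeFactor

/-- `n` fails the strong test for the base `b`: writing `n - 1 = 2 ^ j * d` with `d` odd, neither
`b ^ d = 1` nor `b ^ (2 ^ i * d) = -1` for some `i < j`, modulo `n`. -/
def IsWitness (n b : ℕ) : Prop :=
  ∀ j d : ℕ, n - 1 = 2 ^ j * d → Odd d →
    (b : ZMod n) ^ d ≠ 1 ∧ ∀ i : ℕ, i < j → (b : ZMod n) ^ (2 ^ i * d) ≠ -1

/-- the composite numbers at most `x` that have a prime factor `q` with `n ≤ q ^ 2` and no witness in
`1 < b ≤ 2 (log n)^2` -/
def Exceptions (x : ℕ) : Set ℕ :=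
  {n : ℕ | n ≤ x ∧ 2 ≤ n ∧ ¬ n.Prime ∧ (∃ q : ℕ, q.Prime ∧ q ∣ n ∧ n ≤ q ^ 2) ∧
    ¬ ∃ b : ℕ, 1 < b ∧ (b : ℝ) ≤ 2 * (Real.log n) ^ 2 ∧ IsWitness n b}

/-- For every `ε > 0` there is `K` such that for all `x` at most `K x^(17/35 + ε)` composite `n ≤ x` with a prime
factor `q ≥ √n` have no witness `b` with `1 < b ≤ 2 (log n)^2`. -/
theorem result (ε : ℝ) (hε : 0 < ε) : ∃ K : ℝ, ∀ x : ℕ,
    (Exceptions x).Finite ∧
      ((Exceptions x).ncard : ℝ) ≤ K * (x : ℝ) ^ (17 / 35 + ε : ℝ) := by
  classical
  obtain ⟨K, _, hK⟩ := K1H51.SQ.sqrt_count ε hε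
  refine ⟨K, fun x => ?_⟩
  have h1 : Exceptions x ⊆
      (((Finset.Icc 1 x).filter (fun n => W57.SW.Bd 2 n ∧ K1H51.SQ.PF n) : Finset ℕ) : Set ℕ) := by
    intro n hn
    obtain ⟨h1, h2, h3, h5, h4⟩ := hn
    rw [Finset.mem_coe, Finset.mem_filter, Finset.mem_Icc]
    refine ⟨⟨by omega, h1⟩, ⟨h2, h3, fun b hb1 hb2 => ?_⟩, h5⟩
    by_contra hp
    apply h4
    refine ⟨b, hb1, ?_, fun j d hjd hd => ⟨fun e => ?_, fun i hi e => ?_⟩⟩
    · rw [← Real.rpow_natCast]
      exact_mod_cast hb2
    · exact hp ⟨j, d, hjd, hd, Or.inl e⟩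
    · exact hp ⟨j, d, hjd, hd, Or.inr ⟨i, hi, e⟩⟩
  have h2 : (Exceptions x).Finite := (Finset.finite_toSet _).subset h1
  refine ⟨h2, le_trans ?_ (hK x)⟩
  have h3 := Set.ncard_le_ncard h1 (Finset.finite_toSet _)
  rw [Set.ncard_coe_finset] at h3
  exact_mod_cast h3

end Pool.Agent.Results.MP_0b15c0_nt.LargePrimeFactor
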