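import Pool.Agent.K1H20.MW.Lim

/-!
# Moments of the least witness

Let `W n` be the least witness of the composite number `n` for the strong pseudoprimality test. Unconditionally, the
mean of `(W n)^k` over the composite `n ≤ x` tends to `2^k` for every real `0 ≤ k < 11.76`; and for EVERY `k` the mean of
`(W n)^k` over the composite `n ≤ x` with at least `j` different prime factors tends to `2^k`, if `j ≥ 4` and
`j > k / (2 e^(3/4))` (`2 e^(3/4) = 4.23…`), as it would under the Generalized Riemann Hypothesis. More precisely, let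
`θ = 1 / (4 e^(3/4) + 2 e^(1/2)) = 0.0849…` for `j < 4` and `θ = 1 / (2 j e^(3/4))` for `j ≥ 4`. The sum of `(W n)^k` over the
composite `n ≤ x` with at least `j` prime factors and `W n > 2` is `O(x exp(-√(log x) / 20) + x^(kθ + ε))`, the sum
over those which violate the bound `2 (log n)²` of the question is `O(x^(1/2 - 1/20000 + ε) + x^(kθ + ε))`.

Proof. If `W n > 2`, then `2^(n-1) = 1` modulo `n`. If a prime factor `p` of `n = p m` exceeds `y`, then the order `t` of
two modulo `p` divides `p - 1` and `n - 1`, hence `m - 1`, and as at most `t` primes have order `t` there are at most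
`x (2 + log x) / √y` such `n ≤ x`. For `y = exp(√(log x) / 4)` few `n` are `y`-smooth (Rankin). For all `A` the
witnesses exceed `2 (log n)^A` at most `x^(1/A + ε)` times, and they never exceed `C n^(θ + ε)`.
-/

set_option autoImplicit false

namespace Pool.Agent.Results.MP_0b15c0_nt.MomentsOfLeastWitness

open Filter Topology

/-- `n` fails the strong test for the base `b`: writing `n - 1 = 2 ^ j * d` with `d` odd, neither
`b ^ d = 1` nor `b ^ (2 ^ i * d) = -1` for some `i < j`, modulo `n`. -/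
def IsWitness (n b : ℕ) : Prop :=
  ∀ j d : ℕ, n - 1 = 2 ^ j * d → Odd d →
    (b : ZMod n) ^ d ≠ 1 ∧ ∀ i : ℕ, i < j → (b : ZMod n) ^ (2 ^ i * d) ≠ -1

/-- the least witness of `n` -/
noncomputable def W (n : ℕ) : ℕ := sInf {b : ℕ | 1 < b ∧ IsWitness n b}

/-- the composite numbers up to `x` with at least `j` different prime factors -/
def Comp (j x : ℕ) : Finset ℕ :=
  (Finset.Icc 1 x).filter (fun n => 2 ≤ n ∧ ¬ n.Prime ∧ j ≤ n.primeFactors.card)

/-- `θ = 1 / (4 e^(3/4) + 2 e^(1/2)) = 0.0849…` -/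
noncomputable def theta : ℝ := 1 / (4 * Real.exp (3 / 4) + 2 * Real.exp (1 / 2))

/-- the exponent for numbers with at least `j` prime factors: `1 / (2 j e^(3/4))` for `j ≥ 4` -/
noncomputable def th (j : ℕ) : ℝ := if 4 ≤ j then 1 / (2 * j * Real.exp (3 / 4)) else theta

open Classical in
/-- (1) Every composite number has a least witness. (2) The moments of the witnesses larger than two. (3) The
moments of the witnesses beyond the range of the question. (4) The means tend to `2^k` for `k < 1 / th j`, where (5)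
`1 / th 0 > 11.76` and `1 / th j = 2 j e^(3/4)` for `j ≥ 4`. -/
theorem result :
    (∀ n : ℕ, 2 ≤ n → ¬ n.Prime → 1 < W n ∧ IsWitness n (W n)) ∧
    (∀ (j : ℕ) (k ε : ℝ), 0 ≤ k → 0 < ε → ∃ C : ℝ, ∀ x : ℕ, 1 ≤ x →
      ∑ n ∈ (Comp j x).filter (fun n : ℕ => 2 < W n), (W n : ℝ) ^ k ≤
        C * (x * Real.exp (-(√(Real.log x) / 20)) + (x : ℝ) ^ (k * th j + ε))) ∧
    (∀ (j : ℕ) (k ε : ℝ), 0 ≤ k → 0 < ε → ∃ C : ℝ, ∀ x : ℕ, 1 ≤ x →
      ∑ n ∈ (Comp j x).filter (fun n : ℕ => 2 * (Real.log n) ^ 2 < W n), (W n : ℝ) ^ k ≤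
        C * ((x : ℝ) ^ (1 / 2 - 1 / 20000 + ε) + (x : ℝ) ^ (k * th j + ε))) ∧
    (∀ (j : ℕ) (k : ℝ), 0 ≤ k → k < 1 / th j →
      Tendsto (fun x : ℕ => (∑ n ∈ Comp j x, (W n : ℝ) ^ k) / (Comp j x).card) atTop
        (𝓝 ((2 : ℝ) ^ k))) ∧
    (11.76 < 1 / th 0 ∧ ∀ j : ℕ, 4 ≤ j → 1 / th j = 2 * j * Real.exp (3 / 4)) := by
  refine ⟨fun n hn hnp => Pool.Agent.K1H20.MW.W_mem hn hnp,
    fun j k ε hk hε => Pool.Agent.K1H20.MW.part1 j k ε hk hε,
    fun j k ε hk hε => Pool.Agent.K1H20.MW.part2 j k ε hk hε, fun j k hk hk1 => ?_, ?_, fun j hj => ?_⟩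
  · have h0 : 0 < th j := Pool.Agent.K1H20.MW.th_pos j
    rw [lt_div_iff₀ h0] at hk1
    exact Pool.Agent.K1H20.MW.part3 j k hk hk1
  · have h : (1 : ℝ) / th 0 = 4 * Real.exp (3 / 4) + 2 * Real.exp (1 / 2) := by
      unfold th
      rw [if_neg (by norm_num)]
      unfold theta
      rw [one_div_one_div]
    rw [h]
    exact Pool.Agent.K1H20.MW.num
  · unfold th
    rw [if_pos hj, one_div_one_div]

end Pool.Agent.Results.MP_0b15c0_nt.MomentsOfLeastWitness
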